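import Pool.Agent.Helper64.IG.Goals

/-! MP_d01c92_ag, project IG, packet WIN. -/

open scoped BigOperators
open Module

universe u

namespace Pool.Agent.Helper64.IG.PkWIN

variable {K : Type u} [Field K] {p : ℕ}

theorem dl_ne {l : List (Fin p → K)} (h : l.length ≠ p) : dl l = 0 := by
  rw [dl, dif_neg h]

theorem ga {α : Type*} (A L : List α) (m : ℕ) (h : A.length + m < (A ++ L).length)
    (h' : m < L.length) : (A ++ L)[A.length + m]'h = L[m]'h' := by
  rw [List.getElem_append_right (by omega)]
  exact getElem_congr_idx (by omega)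

theorem dl_swap1 (A B : List (Fin p → K)) (x y : Fin p → K) :
    dl (A ++ x :: y :: B) = -dl (A ++ y :: x :: B) := by
  by_cases h : (A ++ x :: y :: B).length = p
  · have hl : A.length + (B.length + 1 + 1) = p := by
      simpa [List.length_append, List.length_cons] using h
    have h' : (A ++ y :: x :: B).length = p := by
      simpa [List.length_append, List.length_cons] using hl
    rw [dl, dif_pos h, dl, dif_pos h']
    have i0 : A.length < p := by omega
    have i1 : A.length + 1 < p := by omega
    set σ : Equiv.Perm (Fin p) := Equiv.swap ⟨A.length, i0⟩ ⟨A.length + 1, i1⟩ with hσ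
    have hne : (⟨A.length, i0⟩ : Fin p) ≠ ⟨A.length + 1, i1⟩ := by
      intro h
      have := congrArg Fin.val h
      simp at this
    have hdet := Matrix.det_permute' σ
      (fun i j : Fin p => (A ++ y :: x :: B).get (Fin.cast h'.symm j) i)
    rw [hσ, Equiv.Perm.sign_swap hne] at hdet
    have hM : (fun i j : Fin p => (A ++ x :: y :: B).get (Fin.cast h.symm j) i) =
        (Matrix.submatrix (fun i j : Fin p => (A ++ y :: x :: B).get (Fin.cast h'.symm j) i) id
          (Equiv.swap ⟨A.length, i0⟩ ⟨A.length + 1, i1⟩)) := by
      funext i j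
      rw [Matrix.submatrix_apply]
      obtain ⟨j, hj⟩ := j
      simp only [List.get_eq_getElem, Fin.val_cast, id]
      rcases lt_trichotomy j A.length with hlt | heq | hgt
      · rw [Equiv.swap_apply_of_ne_of_ne (by
          intro h
          have := congrArg Fin.val h
          simp at this
          omega) (by
          intro h
          have := congrArg Fin.val h
          simp at this
          omega)]
        simp only [List.getElem_append_left hlt]
      · subst heq
        rw [Equiv.swap_apply_left]
        have g1 := ga A (x :: y :: B) 0 (by simp) (by simp)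
        have g2 := ga A (y :: x :: B) 1 (by simp) (by simp)
        simp only [Nat.add_zero] at g1
        rw [g1, g2]
        rfl
      · rcases Nat.lt_or_ge (A.length + 1) j with hgt' | hle
        · rw [Equiv.swap_apply_of_ne_of_ne (by
            intro h
            have := congrArg Fin.val h
            simp at this
            omega) (by
            intro h
            have := congrArg Fin.val h
            simp at this
            omega)]
          obtain ⟨m, rfl⟩ : ∃ m, j = A.length + (m + 2) := ⟨j - A.length - 2, by omega⟩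
          have hm : m < B.length := by omega
          have g1 := ga A (x :: y :: B) (m + 2) (by simp; omega) (by simp; omega)
          have g2 := ga A (y :: x :: B) (m + 2) (by simp; omega) (by simp; omega)
          rw [g1, g2]
          rfl
        · have : j = A.length + 1 := by omega
          subst this
          rw [Equiv.swap_apply_right]
          have g1 := ga A (x :: y :: B) 1 (by simp) (by simp)
          have g2 := ga A (y :: x :: B) 0 (by simp) (by simp)
          simp only [Nat.add_zero] at g2
          rw [g1, g2]
          rfl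
    rw [hM, hdet]
    simp
  · have h' : (A ++ y :: x :: B).length ≠ p := by
      intro h2
      apply h
      simpa [List.length_append, List.length_cons] using h2
    rw [dl_ne h, dl_ne h', neg_zero]

theorem dl_move1 (A : List (Fin p → K)) (x : Fin p → K) (Y B : List (Fin p → K)) :
    dl (A ++ x :: (Y ++ B)) = (-1) ^ Y.length * dl (A ++ (Y ++ x :: B)) := by
  induction Y generalizing A with
  | nil => simp
  | cons y Y ih =>
    have h1 := ih (A ++ [y])
    rw [List.cons_append, dl_swap1]
    have e1 : A ++ y :: x :: (Y ++ B) = A ++ [y] ++ x :: (Y ++ B) := by simp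
    have e2 : A ++ (y :: Y ++ x :: B) = A ++ [y] ++ (Y ++ x :: B) := by simp
    rw [e1, e2, h1, List.length_cons, pow_succ]
    ring

theorem dl_move (A X Y B : List (Fin p → K)) :
    dl (A ++ (X ++ (Y ++ B))) = (-1) ^ (X.length * Y.length) * dl (A ++ (Y ++ (X ++ B))) := by
  induction X generalizing A with
  | nil => simp
  | cons x X ih =>
    have h1 := ih (A ++ [x])
    have e1 : A ++ (x :: X ++ (Y ++ B)) = A ++ [x] ++ (X ++ (Y ++ B)) := by simp
    have e2 : A ++ [x] ++ (Y ++ (X ++ B)) = A ++ x :: (Y ++ (X ++ B)) := by simp
    rw [e1, h1, e2, dl_move1, List.length_cons, ← mul_assoc, ← pow_add, Nat.succ_mul]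
    simp

theorem sel_append {α : Type*} : ∀ (l l' : List α) (b b' : List Bool), b.length = l.length →
    sel (l ++ l') (b ++ b') = sel l b ++ sel l' b'
  | [], l', [], b', _ => by simp [sel]
  | [], l', _ :: _, b', h => by simp at h
  | _ :: _, l', [], b', h => by simp at h
  | a :: l, l', true :: b, b', h => by
    have h1 : b.length = l.length := by simpa using h
    simp [sel, sel_append l l' b b' h1]
  | a :: l, l', false :: b, b', h => by
    have h1 : b.length = l.length := by simpa using h
    simp [sel, sel_append l l' b b' h1]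

/-- the sign -/
def sgn (p a q e g : ℕ) : ℤ := (-1) ^ (a * (p - a - g) + q * (p - a - q - e - g))

theorem block (L1 C1 f C2 L2 : List (Fin p → K)) :
    dl (L1 ++ (C1 ++ (f ++ (C2 ++ L2)))) =
      ((sgn p L1.length C1.length C2.length L2.length : ℤ) : K) *
        dl (f ++ ((C1 ++ C2) ++ (L1 ++ L2))) := by
  by_cases h : L1.length + C1.length + f.length + C2.length + L2.length = p
  · have s1 := dl_move [] L1 (C1 ++ f ++ C2) L2
    have s2 := dl_move [] C1 f (C2 ++ (L1 ++ L2))
    have e1 : [] ++ (L1 ++ (C1 ++ f ++ C2 ++ L2)) = L1 ++ (C1 ++ (f ++ (C2 ++ L2))) := by simp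
    have e2 : [] ++ (C1 ++ f ++ C2 ++ (L1 ++ L2)) = [] ++ (C1 ++ (f ++ (C2 ++ (L1 ++ L2)))) := by
      simp
    have e3 : [] ++ (f ++ (C1 ++ (C2 ++ (L1 ++ L2)))) = f ++ ((C1 ++ C2) ++ (L1 ++ L2)) := by
      simp
    rw [e1, e2, s2, e3] at s1
    rw [s1, ← mul_assoc, ← pow_add, sgn]
    have h1 : p - L1.length - L2.length = (C1 ++ f ++ C2).length := by
      simp only [List.length_append]
      omega
    have h2 : p - L1.length - C1.length - C2.length - L2.length = f.length := by omega
    rw [h1, h2]
    push_cast
    rfl
  · rw [dl_ne, dl_ne, mul_zero]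
    · simp only [List.length_append]
      omega
    · simp only [List.length_append]
      omega

theorem sgn_ne (p a q e g : ℕ) : ((sgn p a q e g : ℤ) : K) ≠ 0 := by
  rw [sgn]
  push_cast
  exact pow_ne_zero _ (by simp)

/-- the value of a slice of a generator -/
theorem slice_gen (c : K) (l1 A1 F A2 l2 : List (Fin p → K)) (sl sr xs zs : List Bool)
    (hsl : sl.length = A1.length) (hsr : sr.length = A2.length) (hxs : xs.length = l1.length)
    (hzs : zs.length = l2.length) :
    slc (K := K) F.length sl sr (fun bs => if bs.length = A1.length + F.length + A2.length then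
      (fun b => c * plu (l1 ++ A1 ++ F ++ A2 ++ l2) b) (xs ++ bs ++ zs) else 0) =
    (c * ((sgn p (sel l1 xs).length (sel A1 sl).length (sel A2 sr).length
      (sel l2 zs).length : ℤ) : K)) • fun bs => if bs.length = F.length then
        dl (sel F bs ++ (sel A1 sl ++ sel A2 sr) ++ sel (l1 ++ l2) (xs ++ zs)) else 0 := by
  funext bs
  rw [Pi.smul_apply, smul_eq_mul]
  change (if bs.length = F.length then _ else 0) = _
  by_cases hbs : bs.length = F.length
  · rw [if_pos hbs, if_pos hbs]
    have h1 : (sl ++ bs ++ sr).length = A1.length + F.length + A2.length := by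
      simp only [List.length_append]
      omega
    simp only [h1, if_true]
    have h2 : (xs ++ (sl ++ bs ++ sr) ++ zs).length = (l1 ++ A1 ++ F ++ A2 ++ l2).length := by
      simp only [List.length_append]
      omega
    rw [plu, if_pos h2]
    have e1 : l1 ++ A1 ++ F ++ A2 ++ l2 = l1 ++ (A1 ++ (F ++ (A2 ++ l2))) := by simp
    have e2 : xs ++ (sl ++ bs ++ sr) ++ zs = xs ++ (sl ++ (bs ++ (sr ++ zs))) := by simp
    rw [e1, e2, sel_append _ _ _ _ hxs, sel_append _ _ _ _ hsl, sel_append _ _ _ _ hbs,
      sel_append _ _ _ _ hsr, sel_append _ _ _ _ hxs, block, List.append_assoc (sel F bs)]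
    ring
  · rw [if_neg hbs, if_neg hbs, mul_zero]

theorem span_eq (c : K) (hc : c ≠ 0) (l1 A1 F A2 l2 : List (Fin p → K)) (sl sr : List Bool)
    (hsl : sl.length = A1.length) (hsr : sr.length = A2.length) :
    (Usp (fun b => c * plu (l1 ++ A1 ++ F ++ A2 ++ l2) b)
        (l1 ++ A1 ++ F ++ A2 ++ l2).length l1.length (A1.length + F.length + A2.length)).map
          (slc F.length sl sr) =
    Submodule.span K {g : List Bool → K | ∃ S : List Bool, S.length = (l1 ++ l2).length ∧
      g = fun bs => if bs.length = F.length then
        dl (sel F bs ++ (sel A1 sl ++ sel A2 sr) ++ sel (l1 ++ l2) S) else 0} := by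
  rw [Usp, Submodule.map_span]
  refine le_antisymm (Submodule.span_le.2 ?_) (Submodule.span_le.2 ?_)
  · rintro _ ⟨f, ⟨xs, zs, hxs, hzs, rfl⟩, rfl⟩
    have hzs' : zs.length = l2.length := by
      simp only [List.length_append] at hzs
      omega
    rw [SetLike.mem_coe, slice_gen c l1 A1 F A2 l2 sl sr xs zs hsl hsr hxs hzs']
    refine Submodule.smul_mem _ _ (Submodule.subset_span ⟨xs ++ zs, ?_, rfl⟩)
    simp only [List.length_append, hxs, hzs']
  · rintro _ ⟨S, hS, rfl⟩
    have hS' : S.length = l1.length + l2.length := by simpa using hS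
    have hxs : (S.take l1.length).length = l1.length := by
      rw [List.length_take]
      omega
    have hzs : (S.drop l1.length).length = l2.length := by
      rw [List.length_drop]
      omega
    have key := slice_gen c l1 A1 F A2 l2 sl sr (S.take l1.length) (S.drop l1.length) hsl hsr hxs
      hzs
    rw [List.take_append_drop] at key
    set t : K := c * ((sgn p (sel l1 (S.take l1.length)).length (sel A1 sl).length
      (sel A2 sr).length (sel l2 (S.drop l1.length)).length : ℤ) : K) with ht
    have ht0 : t ≠ 0 := mul_ne_zero hc (sgn_ne _ _ _ _ _)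
    rw [SetLike.mem_coe, ← one_smul K (fun bs : List Bool => if bs.length = F.length then
        dl (sel F bs ++ (sel A1 sl ++ sel A2 sr) ++ sel (l1 ++ l2) S) else 0),
      ← inv_mul_cancel₀ ht0, mul_smul, ← key]
    refine Submodule.smul_mem _ _ (Submodule.subset_span ⟨_, ⟨S.take l1.length,
      S.drop l1.length, hxs, ?_, rfl⟩, rfl⟩)
    simp only [List.length_append, hzs]
    omega

theorem slc_nil (z : List Bool → K) (m i n : ℕ) :
    (Usp z m i n).map (slc n [] []) = Usp z m i n := by
  rw [Usp, Submodule.map_span]
  congr 1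
  ext f
  constructor
  · rintro ⟨f, ⟨xs, zs, h1, h2, rfl⟩, rfl⟩
    refine ⟨xs, zs, h1, h2, ?_⟩
    funext bs
    change (if bs.length = n then _ else 0) = _
    by_cases hbs : bs.length = n
    · simp [hbs]
    · simp [hbs]
  · rintro ⟨xs, zs, h1, h2, rfl⟩
    refine ⟨_, ⟨xs, zs, h1, h2, rfl⟩, ?_⟩
    funext bs
    change (if bs.length = n then _ else 0) = _
    by_cases hbs : bs.length = n
    · simp [hbs]
    · simp [hbs]

theorem win (f2 : G_F2.{u}) : G_WIN.{u} := by
  intro K _ p c hc
  have first : ∀ (l1 A1 F A2 l2 : List (Fin p → K)) (sl sr : List Bool),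
      sl.length = A1.length → sr.length = A2.length →
      LinearIndependent K (sel A1 sl ++ sel A2 sr).get →
      rkl (F ++ (sel A1 sl ++ sel A2 sr) ++ (l1 ++ l2)) = p →
      finrank K ((Usp (fun b => c * plu (l1 ++ A1 ++ F ++ A2 ++ l2) b)
        (l1 ++ A1 ++ F ++ A2 ++ l2).length l1.length (A1.length + F.length + A2.length)).map
          (slc F.length sl sr)) =
        2 ^ (rkl (F ++ (sel A1 sl ++ sel A2 sr)) + rkl ((sel A1 sl ++ sel A2 sr) ++ (l1 ++ l2)) -
          (sel A1 sl ++ sel A2 sr).length - p) := by
    intro l1 A1 F A2 l2 sl sr hsl hsr hind hrk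
    rw [span_eq c hc l1 A1 F A2 l2 sl sr hsl hsr]
    exact f2 K p F (sel A1 sl ++ sel A2 sr) (l1 ++ l2) hind hrk
  refine ⟨first, ?_⟩
  intro l1 F l2 hrk
  have h := first l1 [] F [] l2 [] [] rfl rfl ?_ ?_
  · have e0 : l1 ++ [] ++ F ++ [] ++ l2 = l1 ++ F ++ l2 := by simp
    have e1 : sel ([] : List (Fin p → K)) [] = [] := by simp [sel]
    have e2 : ([] : List (Fin p → K)).length + F.length + ([] : List (Fin p → K)).length =
        F.length := by simp
    have hsub : (Usp (fun b => c * plu (l1 ++ [] ++ F ++ [] ++ l2) b)
        (l1 ++ [] ++ F ++ [] ++ l2).length l1.length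
        (([] : List (Fin p → K)).length + F.length + ([] : List (Fin p → K)).length)).map
          (slc F.length [] []) = Usp (fun b => c * plu (l1 ++ F ++ l2) b)
        (l1 ++ F ++ l2).length l1.length F.length := by
      rw [e0, e2, slc_nil]
    have h3 := congrArg (fun S : Submodule K (List Bool → K) => finrank K S) hsub
    refine h3.symm.trans (h.trans ?_)
    rw [e1]
    simp
  · have e1 : sel ([] : List (Fin p → K)) [] = [] := by simp [sel]
    rw [e1]
    have : IsEmpty (Fin (([] : List (Fin p → K)) ++ []).length) := by
      simp only [List.append_nil, List.length_nil]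
      infer_instance
    exact linearIndependent_empty_type
  · have e1 : sel ([] : List (Fin p → K)) [] = [] := by simp [sel]
    rw [e1]
    refine Eq.trans ?_ hrk
    rw [rkl, rkl]
    have hset : {v | v ∈ F ++ (([] : List (Fin p → K)) ++ []) ++ (l1 ++ l2)} =
        {v | v ∈ l1 ++ F ++ l2} := by
      ext v
      simp only [List.mem_append, List.not_mem_nil, Set.mem_setOf_eq]
      tauto
    rw [hset]

end Pool.Agent.Helper64.IG.PkWIN
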